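import Mathlib

set_option autoImplicit false

namespace Pool.Agent.MPb29e0e

section ring

variable {R : Type} [Ring R] [Algebra ℂ R]


/-- polarised cubic expressions -/
def E3 (x z : R) : R :=
  (4:ℂ) • (x*x*x*z) - (21:ℂ) • (x*x*z*x) + (21:ℂ) • (x*z*x*x) - (4:ℂ) • (z*x*x*x)

def E21 (x y z : R) : R :=
  (4:ℂ) • (x*x*y*z) - (21:ℂ) • (x*x*z*y) + (21:ℂ) • (x*z*x*y) - (4:ℂ) • (z*x*x*y)
  + (4:ℂ) • (x*y*x*z) - (21:ℂ) • (x*y*z*x) + (21:ℂ) • (x*z*y*x) - (4:ℂ) • (z*x*y*x)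
  + (4:ℂ) • (y*x*x*z) - (21:ℂ) • (y*x*z*x) + (21:ℂ) • (y*z*x*x) - (4:ℂ) • (z*y*x*x)

def TT (C z : R) : R :=
  (4:ℂ) • (C*C*C*z) - (21:ℂ) • (C*C*z*C) + (21:ℂ) • (C*z*C*C) - (4:ℂ) • (z*C*C*C)

lemma TT_expand (a b : ℂ) (x y z : R) :
    TT (a • x + b • y) z = a^3 • E3 x z + (a^2*b) • E21 x y z + (a*b^2) • E21 y x z
      + b^3 • E3 y z := by
  unfold TT E3 E21
  simp only [mul_add, add_mul, smul_mul_assoc, mul_smul_comm, smul_add, smul_smul]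
  module

lemma cert_a2b_z (x y z : R) (r1 : (4:ℂ) • (x*y) - y*x - (3:ℂ) • (1:R) = 0)
    (r2 : (4:ℂ) • (y*z) - z*y - (3:ℂ) • (1:R) = 0) :
    (4:ℂ) • E21 x y z + (225:ℂ) • (x*z - z*x) = 0 := by
  have key : (4:ℂ) • E21 x y z + (225:ℂ) • (x*z - z*x) =
      (-16:ℂ) • (((4:ℂ) • (x*y) - y*x - (3:ℂ) • (1:R)) * (x*z))
      + (-80:ℂ) • (x * ((4:ℂ) • (x*y) - y*x - (3:ℂ) • (1:R)) * z)
      + (21:ℂ) • (x*z * ((4:ℂ) • (x*y) - y*x - (3:ℂ) • (1:R)))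
      + (84:ℂ) • (((4:ℂ) • (x*y) - y*x - (3:ℂ) • (1:R)) * (z*x))
      + (-5:ℂ) • (z * ((4:ℂ) • (x*y) - y*x - (3:ℂ) • (1:R)) * x)
      + (-4:ℂ) • (z*x * ((4:ℂ) • (x*y) - y*x - (3:ℂ) • (1:R)))
      + (21:ℂ) • (((4:ℂ) • (y*z) - z*y - (3:ℂ) • (1:R)) * (x*x))
      + (-105:ℂ) • (x * ((4:ℂ) • (y*z) - z*y - (3:ℂ) • (1:R)) * x)
      + (84:ℂ) • (x*x * ((4:ℂ) • (y*z) - z*y - (3:ℂ) • (1:R))) := by
    unfold E21
    simp only [mul_sub, sub_mul, mul_add, add_mul, smul_mul_assoc, mul_smul_comm, mul_one,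
      one_mul, ← mul_assoc, smul_add, smul_sub, smul_smul, pow_succ, pow_zero, neg_mul,
      mul_neg, smul_neg]
    module
  rw [key, r1, r2]
  simp

lemma cert_ab2_z (x y z : R) (r1 : (4:ℂ) • (x*y) - y*x - (3:ℂ) • (1:R) = 0)
    (r2 : (4:ℂ) • (y*z) - z*y - (3:ℂ) • (1:R) = 0) :
    (4:ℂ) • E21 y x z + (225:ℂ) • (y*z - z*y) = 0 := by
  have key : (4:ℂ) • E21 y x z + (225:ℂ) • (y*z - z*y) =
      (63:ℂ) • ((4:ℂ) • (x*y) - y*x - (3:ℂ) • (1:R))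
      + (-80:ℂ) • (((4:ℂ) • (x*y) - y*x - (3:ℂ) • (1:R)) * (y*z))
      + (-16:ℂ) • (y * ((4:ℂ) • (x*y) - y*x - (3:ℂ) • (1:R)) * z)
      + (-63:ℂ) • (y*z * ((4:ℂ) • (x*y) - y*x - (3:ℂ) • (1:R)))
      + (84:ℂ) • (((4:ℂ) • (x*y) - y*x - (3:ℂ) • (1:R)) * (z*y))
      + (-4:ℂ) • (z * ((4:ℂ) • (x*y) - y*x - (3:ℂ) • (1:R)) * y)
      + (16:ℂ) • (z*y * ((4:ℂ) • (x*y) - y*x - (3:ℂ) • (1:R)))
      + (-63:ℂ) • ((4:ℂ) • (y*z) - z*y - (3:ℂ) • (1:R))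
      + (84:ℂ) • (((4:ℂ) • (y*z) - z*y - (3:ℂ) • (1:R)) * (x*y))
      + (-84:ℂ) • (x * ((4:ℂ) • (y*z) - z*y - (3:ℂ) • (1:R)) * y)
      + (84:ℂ) • (x*y * ((4:ℂ) • (y*z) - z*y - (3:ℂ) • (1:R)))
      + (-21:ℂ) • (y * ((4:ℂ) • (y*z) - z*y - (3:ℂ) • (1:R)) * x) := by
    unfold E21
    simp only [mul_sub, sub_mul, mul_add, add_mul, smul_mul_assoc, mul_smul_comm, mul_one,
      one_mul, ← mul_assoc, smul_add, smul_sub, smul_smul, pow_succ, pow_zero, neg_mul,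
      mul_neg, smul_neg]
    module
  rw [key, r1, r2]
  simp

lemma cert_b3_z (y z : R)
    (r2 : (4:ℂ) • (y*z) - z*y - (3:ℂ) • (1:R) = 0) : E3 y z = 0 := by
  have key : E3 y z =
      (4:ℂ) • (((4:ℂ) • (y*z) - z*y - (3:ℂ) • (1:R)) * (y*y))
      + (-5:ℂ) • (y * ((4:ℂ) • (y*z) - z*y - (3:ℂ) • (1:R)) * y)
      + (1:ℂ) • (y*y * ((4:ℂ) • (y*z) - z*y - (3:ℂ) • (1:R))) := by
    unfold E3
    simp only [mul_sub, sub_mul, mul_add, add_mul, smul_mul_assoc, mul_smul_comm, mul_one,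
      one_mul, ← mul_assoc, smul_add, smul_sub, smul_smul, pow_succ, pow_zero, neg_mul,
      mul_neg, smul_neg]
    module
  rw [key, r2]
  simp

lemma cert_a2b_w (x y w : R) (r1 : (4:ℂ) • (x*y) - y*x - (3:ℂ) • (1:R) = 0)
    (r4 : (4:ℂ) • (w*x) - x*w - (3:ℂ) • (1:R) = 0) :
    (4:ℂ) • E21 x y w + (225:ℂ) • (x*w - w*x) = 0 := by
  have key : (4:ℂ) • E21 x y w + (225:ℂ) • (x*w - w*x) =
      (-63:ℂ) • ((4:ℂ) • (x*y) - y*x - (3:ℂ) • (1:R))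
      + (63:ℂ) • (((4:ℂ) • (x*y) - y*x - (3:ℂ) • (1:R)) * (w*x))
      + (16:ℂ) • (w * ((4:ℂ) • (x*y) - y*x - (3:ℂ) • (1:R)) * x)
      + (80:ℂ) • (w*x * ((4:ℂ) • (x*y) - y*x - (3:ℂ) • (1:R)))
      + (-16:ℂ) • (((4:ℂ) • (x*y) - y*x - (3:ℂ) • (1:R)) * (x*w))
      + (4:ℂ) • (x * ((4:ℂ) • (x*y) - y*x - (3:ℂ) • (1:R)) * w)
      + (-84:ℂ) • (x*w * ((4:ℂ) • (x*y) - y*x - (3:ℂ) • (1:R)))
      + (63:ℂ) • ((4:ℂ) • (w*x) - x*w - (3:ℂ) • (1:R))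
      + (-84:ℂ) • (((4:ℂ) • (w*x) - x*w - (3:ℂ) • (1:R)) * (x*y))
      + (84:ℂ) • (x * ((4:ℂ) • (w*x) - x*w - (3:ℂ) • (1:R)) * y)
      + (-84:ℂ) • (x*y * ((4:ℂ) • (w*x) - x*w - (3:ℂ) • (1:R)))
      + (21:ℂ) • (y * ((4:ℂ) • (w*x) - x*w - (3:ℂ) • (1:R)) * x) := by
    unfold E21
    simp only [mul_sub, sub_mul, mul_add, add_mul, smul_mul_assoc, mul_smul_comm, mul_one,
      one_mul, ← mul_assoc, smul_add, smul_sub, smul_smul, pow_succ, pow_zero, neg_mul,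
      mul_neg, smul_neg]
    module
  rw [key, r1, r4]
  simp

lemma cert_ab2_w (x y w : R) (r1 : (4:ℂ) • (x*y) - y*x - (3:ℂ) • (1:R) = 0)
    (r4 : (4:ℂ) • (w*x) - x*w - (3:ℂ) • (1:R) = 0) :
    (4:ℂ) • E21 y x w + (225:ℂ) • (y*w - w*y) = 0 := by
  have key : (4:ℂ) • E21 y x w + (225:ℂ) • (y*w - w*y) =
      (-21:ℂ) • (((4:ℂ) • (x*y) - y*x - (3:ℂ) • (1:R)) * (w*y))
      + (80:ℂ) • (w * ((4:ℂ) • (x*y) - y*x - (3:ℂ) • (1:R)) * y)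
      + (16:ℂ) • (w*y * ((4:ℂ) • (x*y) - y*x - (3:ℂ) • (1:R)))
      + (4:ℂ) • (((4:ℂ) • (x*y) - y*x - (3:ℂ) • (1:R)) * (y*w))
      + (5:ℂ) • (y * ((4:ℂ) • (x*y) - y*x - (3:ℂ) • (1:R)) * w)
      + (-84:ℂ) • (y*w * ((4:ℂ) • (x*y) - y*x - (3:ℂ) • (1:R)))
      + (-84:ℂ) • (((4:ℂ) • (w*x) - x*w - (3:ℂ) • (1:R)) * (y*y))
      + (105:ℂ) • (y * ((4:ℂ) • (w*x) - x*w - (3:ℂ) • (1:R)) * y)
      + (-21:ℂ) • (y*y * ((4:ℂ) • (w*x) - x*w - (3:ℂ) • (1:R))) := by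
    unfold E21
    simp only [mul_sub, sub_mul, mul_add, add_mul, smul_mul_assoc, mul_smul_comm, mul_one,
      one_mul, ← mul_assoc, smul_add, smul_sub, smul_smul, pow_succ, pow_zero, neg_mul,
      mul_neg, smul_neg]
    module
  rw [key, r1, r4]
  simp

lemma cert_a3_w (x w : R)
    (r4 : (4:ℂ) • (w*x) - x*w - (3:ℂ) • (1:R) = 0) : E3 x w = 0 := by
  have key : E3 x w =
      (-1:ℂ) • (((4:ℂ) • (w*x) - x*w - (3:ℂ) • (1:R)) * (x*x))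
      + (5:ℂ) • (x * ((4:ℂ) • (w*x) - x*w - (3:ℂ) • (1:R)) * x)
      + (-4:ℂ) • (x*x * ((4:ℂ) • (w*x) - x*w - (3:ℂ) • (1:R))) := by
    unfold E3
    simp only [mul_sub, sub_mul, mul_add, add_mul, smul_mul_assoc, mul_smul_comm, mul_one,
      one_mul, ← mul_assoc, smul_add, smul_sub, smul_smul, pow_succ, pow_zero, neg_mul,
      mul_neg, smul_neg]
    module
  rw [key, r4]
  simp

lemma TT_z (a b : ℂ) (x y z : R) (r1 : (4:ℂ) • (x*y) - y*x - (3:ℂ) • (1:R) = 0)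
    (r2 : (4:ℂ) • (y*z) - z*y - (3:ℂ) • (1:R) = 0) (s : E3 x z = 0) :
    (4:ℂ) • TT (a • x + b • y) z
      = (-225*(a*b)) • ((a • x + b • y) * z - z * (a • x + b • y)) := by
  have h1 := cert_a2b_z x y z r1 r2
  have h2 := cert_ab2_z x y z r1 r2
  have h3 := cert_b3_z y z r2
  have e1 : (4:ℂ) • E21 x y z = -((225:ℂ) • (x*z - z*x)) := eq_neg_of_add_eq_zero_left h1
  have e2 : (4:ℂ) • E21 y x z = -((225:ℂ) • (y*z - z*y)) := eq_neg_of_add_eq_zero_left h2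
  rw [TT_expand, s, h3]
  have : (4:ℂ) • (a^3 • (0:R) + (a^2*b) • E21 x y z + (a*b^2) • E21 y x z + b^3 • (0:R))
      = (a^2*b) • ((4:ℂ) • E21 x y z) + (a*b^2) • ((4:ℂ) • E21 y x z) := by module
  rw [this, e1, e2]
  simp only [mul_sub, sub_mul, mul_add, add_mul, smul_mul_assoc, mul_smul_comm, mul_one,
    one_mul, ← mul_assoc, smul_add, smul_sub, smul_smul, pow_succ, pow_zero, neg_mul,
    mul_neg, smul_neg]
  module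

lemma TT_w (a b : ℂ) (x y w : R) (r1 : (4:ℂ) • (x*y) - y*x - (3:ℂ) • (1:R) = 0)
    (r4 : (4:ℂ) • (w*x) - x*w - (3:ℂ) • (1:R) = 0) (s : E3 y w = 0) :
    (4:ℂ) • TT (a • x + b • y) w
      = (-225*(a*b)) • ((a • x + b • y) * w - w * (a • x + b • y)) := by
  have h1 := cert_a2b_w x y w r1 r4
  have h2 := cert_ab2_w x y w r1 r4
  have h3 := cert_a3_w x w r4
  have e1 : (4:ℂ) • E21 x y w = -((225:ℂ) • (x*w - w*x)) := eq_neg_of_add_eq_zero_left h1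
  have e2 : (4:ℂ) • E21 y x w = -((225:ℂ) • (y*w - w*y)) := eq_neg_of_add_eq_zero_left h2
  rw [TT_expand, s, h3]
  have : (4:ℂ) • (a^3 • (0:R) + (a^2*b) • E21 x y w + (a*b^2) • E21 y x w + b^3 • (0:R))
      = (a^2*b) • ((4:ℂ) • E21 x y w) + (a*b^2) • ((4:ℂ) • E21 y x w) := by module
  rw [this, e1, e2]
  simp only [mul_sub, sub_mul, mul_add, add_mul, smul_mul_assoc, mul_smul_comm, mul_one,
    one_mul, ← mul_assoc, smul_add, smul_sub, smul_smul, pow_succ, pow_zero, neg_mul,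
    mul_neg, smul_neg]
  module

/-- the tridiagonal-type relation for `C = a x + b y` and `B = a' z + b' w + c'` -/
lemma TT_B (a b a' b' c' : ℂ) (x y z w C B : R)
    (r1 : (4:ℂ) • (x*y) - y*x - (3:ℂ) • (1:R) = 0)
    (r2 : (4:ℂ) • (y*z) - z*y - (3:ℂ) • (1:R) = 0)
    (r4 : (4:ℂ) • (w*x) - x*w - (3:ℂ) • (1:R) = 0)
    (s1 : E3 x z = 0) (s2 : E3 y w = 0)
    (hC : C = a • x + b • y) (hB : B = a' • z + b' • w + c' • (1:R)) :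
    (4:ℂ) • TT C B = (-225*(a*b)) • (C * B - B * C) := by
  have h1 := TT_z a b x y z r1 r2 s1
  have h2 := TT_w a b x y w r1 r4 s2
  rw [← hC] at h1 h2
  have e : TT C B = a' • TT C z + b' • TT C w := by
    rw [hB]
    unfold TT
    simp only [mul_sub, sub_mul, mul_add, add_mul, smul_mul_assoc, mul_smul_comm, mul_one,
      one_mul, ← mul_assoc, smul_add, smul_sub, smul_smul, pow_succ, pow_zero, neg_mul,
      mul_neg, smul_neg]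
    module
  have e2 : C * B - B * C = a' • (C * z - z * C) + b' • (C * w - w * C) := by
    rw [hB]
    simp only [mul_sub, sub_mul, mul_add, add_mul, smul_mul_assoc, mul_smul_comm, mul_one,
      one_mul, ← mul_assoc, smul_add, smul_sub, smul_smul, pow_succ, pow_zero, neg_mul,
      mul_neg, smul_neg]
    module
  rw [e, e2]
  have : (4:ℂ) • (a' • TT C z + b' • TT C w) = a' • ((4:ℂ) • TT C z) + b' • ((4:ℂ) • TT C w) := by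
    module
  rw [this, h1, h2]
  module

end ring

end Pool.Agent.MPb29e0e
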