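import Pool.Agent.MPb29e0e.Cert

set_option autoImplicit false

namespace Pool.Agent.MPb29e0e

abbrev M4 := Matrix (Fin 4) (Fin 4) ℂ

/-- diagonal matrix `(64,16,4,1)` shifted by `-c` -/
def DD (c : ℂ) : M4 := !![64 - c, 0, 0, 0; 0, 16 - c, 0, 0; 0, 0, 4 - c, 0; 0, 0, 0, 1 - c]

def BB (p1 p2 p3 l1 l2 l3 : ℂ) : M4 := !![0, p1, 0, 0; l1, 0, p2, 0; 0, l2, 0, p3; 0, 0, l3, 0]

lemma entry (P Q : M4) (h : (4:ℂ) • (P * Q) - Q * P - (3:ℂ) • (1 : M4) = 0) (i j : Fin 4) :
    4 * (P i 0 * Q 0 j + P i 1 * Q 1 j + P i 2 * Q 2 j + P i 3 * Q 3 j)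
      - (Q i 0 * P 0 j + Q i 1 * P 1 j + Q i 2 * P 2 j + Q i 3 * P 3 j)
      = if i = j then 3 else 0 := by
  have h1 := congrFun (congrFun h i) j
  simp only [Matrix.sub_apply, Matrix.smul_apply, Matrix.mul_apply, Fin.sum_univ_four,
    Matrix.one_apply, smul_eq_mul, Matrix.zero_apply] at h1
  split_ifs with hij
  · rw [if_pos hij] at h1
    linear_combination h1
  · rw [if_neg hij] at h1
    linear_combination h1

lemma core2 (c ab p1 p2 p3 l1 l2 l3 : ℂ) (hp1 : p1 ≠ 0) (hp2 : p2 ≠ 0)
    (h : (4:ℂ) • TT (DD c) (BB p1 p2 p3 l1 l2 l3)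
      = (-225 * ab) • (DD c * BB p1 p2 p3 l1 l2 l3 - BB p1 p2 p3 l1 l2 l3 * DD c)) :
    c = 0 ∧ ab = 0 := by
  have h01 := congrFun (congrFun h 0) 1
  have h12 := congrFun (congrFun h 1) 2
  simp [TT, DD, BB, Matrix.sub_apply, Matrix.add_apply, Matrix.smul_apply, Matrix.mul_apply,
    Fin.sum_univ_four] at h01 h12
  have e1 : 48 * p1 * (9 * c * 80 - 9 * c ^ 2 + 225 / 4 * ab) = 0 := by
    linear_combination h01 / 4
  have e2 : 12 * p2 * (9 * c * 20 - 9 * c ^ 2 + 225 / 4 * ab) = 0 := by
    linear_combination h12 / 4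
  have f1 : 9 * c * 80 - 9 * c ^ 2 + 225 / 4 * ab = 0 := by
    rcases mul_eq_zero.1 e1 with h | h
    · exact absurd h (by simpa using hp1)
    · exact h
  have f2 : 9 * c * 20 - 9 * c ^ 2 + 225 / 4 * ab = 0 := by
    rcases mul_eq_zero.1 e2 with h | h
    · exact absurd h (by simpa using hp2)
    · exact h
  have hc : c = 0 := by linear_combination (f1 - f2) / 540
  refine ⟨hc, ?_⟩
  rw [hc] at f1
  linear_combination f1 * 4 / 225

lemma core3 (x y z w u : M4) (t p1 p2 p3 l1 l2 l3 a' b' c' : ℂ) (ht : t ≠ 0)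
    (hx : x = t • DD 0)
    (q1 : l1 * p1 = 189) (q2 : l2 * p2 = 900) (q3 : l3 * p3 = 3024)
    (r1 : (4:ℂ) • (x*y) - y*x - (3:ℂ) • (1:M4) = 0)
    (r2 : (4:ℂ) • (y*z) - z*y - (3:ℂ) • (1:M4) = 0)
    (r3 : (4:ℂ) • (z*w) - w*z - (3:ℂ) • (1:M4) = 0)
    (r4 : (4:ℂ) • (w*x) - x*w - (3:ℂ) • (1:M4) = 0)
    (r5 : (4:ℂ) • (x*u) - u*x - (3:ℂ) • (1:M4) = 0)
    (r6 : (4:ℂ) • (u*w) - w*u - (3:ℂ) • (1:M4) = 0)
    (hB : BB p1 p2 p3 l1 l2 l3 = a' • z + b' • w + c' • (1:M4)) : False := by
  obtain ⟨s, hs⟩ : ∃ s : ℂ, t * s = 1 := ⟨t⁻¹, mul_inv_cancel₀ ht⟩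
  have hxe : ∀ i j, x i j = if i = j then t * (DD 0 i i) else 0 := by
    intro i j
    rw [hx]
    fin_cases i <;> fin_cases j <;> simp [DD]
  have x00 : x 0 0 = 64 * t := by rw [hxe]; simp [DD]; ring
  have x11 : x 1 1 = 16 * t := by rw [hxe]; simp [DD]; ring
  have x22 : x 2 2 = 4 * t := by rw [hxe]; simp [DD]; ring
  have x33 : x 3 3 = t := by rw [hxe]; simp [DD]
  have x01 : x 0 1 = 0 := by rw [hxe]; simp
  have x02 : x 0 2 = 0 := by rw [hxe]; simp
  have x03 : x 0 3 = 0 := by rw [hxe]; simp
  have x10 : x 1 0 = 0 := by rw [hxe]; simp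
  have x12 : x 1 2 = 0 := by rw [hxe]; simp
  have x13 : x 1 3 = 0 := by rw [hxe]; simp
  have x20 : x 2 0 = 0 := by rw [hxe]; simp
  have x21 : x 2 1 = 0 := by rw [hxe]; simp
  have x23 : x 2 3 = 0 := by rw [hxe]; simp
  have x30 : x 3 0 = 0 := by rw [hxe]; simp
  have x31 : x 3 1 = 0 := by rw [hxe]; simp
  have x32 : x 3 2 = 0 := by rw [hxe]; simp
  -- entries of y
  have cancel : ∀ (m : ℂ) (v : ℂ), m ≠ 0 → m * (t * v) = 0 → v = 0 := by
    intro m v hm h
    rcases mul_eq_zero.1 h with h | h
    · exact absurd h hm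
    · rcases mul_eq_zero.1 h with h | h
      · exact absurd h ht
      · exact h
  have y00 : y 0 0 = s / 64 := by
    have h := entry x y r1 0 0
    rw [x00, x01, x02, x03, x10, x20, x30, if_pos rfl] at h
    linear_combination s * h / 192 - y 0 0 * hs
  have y01 : y 0 1 = 0 := by
    have h := entry x y r1 0 1
    rw [x00, x01, x02, x03, x11, x21, x31, if_neg (by decide)] at h
    exact cancel 240 _ (by norm_num) (by linear_combination h)
  have y02 : y 0 2 = 0 := by
    have h := entry x y r1 0 2
    rw [x00, x01, x02, x03, x12, x22, x32, if_neg (by decide)] at h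
    exact cancel 252 _ (by norm_num) (by linear_combination h)
  have y03 : y 0 3 = 0 := by
    have h := entry x y r1 0 3
    rw [x00, x01, x02, x03, x13, x23, x33, if_neg (by decide)] at h
    exact cancel 255 _ (by norm_num) (by linear_combination h)
  -- diagonal entries of u
  have u00 : u 0 0 = s / 64 := by
    have h := entry x u r5 0 0
    rw [x00, x01, x02, x03, x10, x20, x30, if_pos rfl] at h
    linear_combination s * h / 192 - u 0 0 * hs
  have u11 : u 1 1 = s / 16 := by
    have h := entry x u r5 1 1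
    rw [x10, x11, x12, x13, x01, x21, x31, if_pos rfl] at h
    linear_combination s * h / 48 - u 1 1 * hs
  have u22 : u 2 2 = s / 4 := by
    have h := entry x u r5 2 2
    rw [x20, x21, x22, x23, x02, x12, x32, if_pos rfl] at h
    linear_combination s * h / 12 - u 2 2 * hs
  have u33 : u 3 3 = s := by
    have h := entry x u r5 3 3
    rw [x30, x31, x32, x33, x03, x13, x23, if_pos rfl] at h
    linear_combination s * h / 3 - u 3 3 * hs
  -- entries of w
  have w00 : w 0 0 = s / 64 := by
    have h := entry w x r4 0 0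
    rw [x00, x01, x02, x03, x10, x20, x30, if_pos rfl] at h
    linear_combination s * h / 192 - w 0 0 * hs
  have w11 : w 1 1 = s / 16 := by
    have h := entry w x r4 1 1
    rw [x10, x11, x12, x13, x01, x21, x31, if_pos rfl] at h
    linear_combination s * h / 48 - w 1 1 * hs
  have w22 : w 2 2 = s / 4 := by
    have h := entry w x r4 2 2
    rw [x20, x21, x22, x23, x02, x12, x32, if_pos rfl] at h
    linear_combination s * h / 12 - w 2 2 * hs
  have w33 : w 3 3 = s := by
    have h := entry w x r4 3 3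
    rw [x30, x31, x32, x33, x03, x13, x23, if_pos rfl] at h
    linear_combination s * h / 3 - w 3 3 * hs
  -- w i j (4 x_j - x_i) = 0
  have w02 : w 0 2 = 0 := by
    have h := entry w x r4 0 2
    rw [x00, x01, x02, x03, x12, x22, x32, if_neg (by decide)] at h
    exact cancel (-48) _ (by norm_num) (by linear_combination h)
  have w03 : w 0 3 = 0 := by
    have h := entry w x r4 0 3
    rw [x00, x01, x02, x03, x13, x23, x33, if_neg (by decide)] at h
    exact cancel (-60) _ (by norm_num) (by linear_combination h)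
  have w10 : w 1 0 = 0 := by
    have h := entry w x r4 1 0
    rw [x10, x11, x12, x13, x00, x20, x30, if_neg (by decide)] at h
    exact cancel 240 _ (by norm_num) (by linear_combination h)
  have w13 : w 1 3 = 0 := by
    have h := entry w x r4 1 3
    rw [x10, x11, x12, x13, x03, x23, x33, if_neg (by decide)] at h
    exact cancel (-12) _ (by norm_num) (by linear_combination h)
  have w20 : w 2 0 = 0 := by
    have h := entry w x r4 2 0
    rw [x20, x21, x22, x23, x00, x10, x30, if_neg (by decide)] at h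
    exact cancel 252 _ (by norm_num) (by linear_combination h)
  have w21 : w 2 1 = 0 := by
    have h := entry w x r4 2 1
    rw [x20, x21, x22, x23, x01, x11, x31, if_neg (by decide)] at h
    exact cancel 60 _ (by norm_num) (by linear_combination h)
  have w30 : w 3 0 = 0 := by
    have h := entry w x r4 3 0
    rw [x30, x31, x32, x33, x00, x10, x20, if_neg (by decide)] at h
    exact cancel 255 _ (by norm_num) (by linear_combination h)
  have w31 : w 3 1 = 0 := by
    have h := entry w x r4 3 1
    rw [x30, x31, x32, x33, x01, x11, x21, if_neg (by decide)] at h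
    exact cancel 63 _ (by norm_num) (by linear_combination h)
  have w32 : w 3 2 = 0 := by
    have h := entry w x r4 3 2
    rw [x30, x31, x32, x33, x02, x12, x22, if_neg (by decide)] at h
    exact cancel 15 _ (by norm_num) (by linear_combination h)
  -- diagonal entries of the relation between u and w
  have d0 := entry u w r6 0 0
  have d1 := entry u w r6 1 1
  have d2 := entry u w r6 2 2
  have d3 := entry u w r6 3 3
  rw [if_pos rfl, w00, w10, w20, w30, w02, w03, u00] at d0
  rw [if_pos rfl, w11, w10, w21, w31, w13, u11] at d1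
  rw [if_pos rfl, w22, w20, w02, w21, w32, u22] at d2
  rw [if_pos rfl, w33, w30, w03, w13, w31, w32, u33] at d3
  have hs2 : s ^ 2 = 64 := by
    linear_combination (4096 / 255) * d0 + (4096 / 1020) * d1 + (4096 / 4080) * d2
      + (4096 / 16320) * d3
  have hs0 : s ≠ 0 := by
    intro h0
    rw [h0] at hs2
    norm_num at hs2
  have hw01 : w 0 1 ≠ 0 := by
    intro h0
    rw [h0] at d0
    have : (3:ℂ) * 64 / 4096 = 3 := by linear_combination d0 - 3 / 4096 * hs2
    norm_num at this
  have hw12 : w 1 2 ≠ 0 := by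
    intro h0
    rw [h0] at d1
    have : (3:ℂ) * 64 / 256 + 3 * 64 / 4096 * 4 = 15 := by
      linear_combination d1 + 4 * d0 - (3 / 256 + 12 / 4096) * hs2
    norm_num at this
  -- entries of B
  have b10 : l1 = a' * z 1 0 := by
    have h := congrFun (congrFun hB 1) 0
    simp [BB, w10] at h
    exact h
  have b21 : l2 = a' * z 2 1 := by
    have h := congrFun (congrFun hB 2) 1
    simp [BB, w21] at h
    exact h
  have b00 : a' * z 0 0 = - b' * (s / 64) - c' := by
    have h := congrFun (congrFun hB 0) 0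
    simp [BB, w00] at h
    linear_combination -h
  have b11 : a' * z 1 1 = - b' * (s / 16) - c' := by
    have h := congrFun (congrFun hB 1) 1
    simp [BB, w11] at h
    linear_combination -h
  have b01 : p1 = a' * z 0 1 + b' * w 0 1 := by
    have h := congrFun (congrFun hB 0) 1
    simp [BB] at h
    exact h
  have b12 : p2 = a' * z 1 2 + b' * w 1 2 := by
    have h := congrFun (congrFun hB 1) 2
    simp [BB] at h
    exact h
  have b22 : a' * z 2 2 = - b' * (s / 4) - c' := by
    have h := congrFun (congrFun hB 2) 2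
    simp [BB, w22] at h
    linear_combination -h
  have ha' : a' ≠ 0 := by
    intro h0
    rw [h0, zero_mul] at b10
    rw [b10] at q1
    norm_num at q1
  have z02 : z 0 2 = 0 := by
    have h := congrFun (congrFun hB 0) 2
    simp [BB, w02] at h
    rcases h with h | h
    · exact absurd h ha'
    · exact h
  have z03 : z 0 3 = 0 := by
    have h := congrFun (congrFun hB 0) 3
    simp [BB, w03] at h
    rcases h with h | h
    · exact absurd h ha'
    · exact h
  have g01 := entry z w r3 0 1
  have g12 := entry z w r3 1 2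
  have g02 := entry z w r3 0 2
  have g00 := entry z w r3 0 0
  have g11 := entry z w r3 1 1
  rw [if_neg (by decide), z02, z03, w11, w21, w31, w00, w02, w03] at g01
  rw [if_neg (by decide), w02, w22, w32, w10, w11, w13] at g12
  rw [if_neg (by decide), w02, z02, z03, w22, w32, w03, w00] at g02
  rw [if_pos rfl, w00, w10, z02, z03, w20, w30, w02, w03] at g00
  rw [if_pos rfl, w11, w10, w21, w31, w13] at g11
  have E1 : 15 * s * (a' * z 0 1) = 192 * c' * w 0 1 := by
    linear_combination 64 * a' * g01 - 256 * w 0 1 * b00 + 64 * w 0 1 * b11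
  have E2 : 15 * s * (a' * z 1 2) = 48 * c' * w 1 2 := by
    linear_combination 16 * a' * g12 - 64 * w 1 2 * b11 + 16 * w 1 2 * b22
  have E3 : 4 * (a' * z 0 1) * w 1 2 = w 0 1 * (a' * z 1 2) := by
    linear_combination a' * g02
  have hc' : c' = 0 := by
    have : c' * (w 0 1 * w 1 2) = 0 := by
      linear_combination (4 * w 1 2 * E1 - w 0 1 * E2 - 15 * s * E3) * (-1 / 720)
    rcases mul_eq_zero.1 this with h | h
    · exact h
    · rcases mul_eq_zero.1 h with h | h
      · exact absurd h hw01
      · exact absurd h hw12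
  have z01 : z 0 1 = 0 := by
    rw [hc'] at E1
    have : (15 * s * a') * z 0 1 = 0 := by linear_combination E1
    rcases mul_eq_zero.1 this with h | h
    · exact absurd h (mul_ne_zero (mul_ne_zero (by norm_num) hs0) ha')
    · exact h
  have z12 : z 1 2 = 0 := by
    rw [hc'] at E2
    have : (15 * s * a') * z 1 2 = 0 := by linear_combination E2
    rcases mul_eq_zero.1 this with h | h
    · exact absurd h (mul_ne_zero (mul_ne_zero (by norm_num) hs0) ha')
    · exact h
  rw [z01, mul_zero, zero_add] at b01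
  rw [z12, mul_zero, zero_add] at b12
  rw [hc'] at b00 b11
  have G0 : -3 * b' ^ 2 / 64 - 189 = 3 * (a' * b') := by
    have k1 : b' * w 0 1 * l1 = 189 := by rw [← b01]; linear_combination q1
    linear_combination a' * b' * g00 - 3 * b' * (s / 64) * b00 - b' * w 0 1 * b10 + k1
      + (3 * b' ^ 2 / 4096) * hs2
  have G1 : 4 * 189 - 3 * b' ^ 2 / 4 - 900 = 3 * (a' * b') := by
    have k1 : b' * w 0 1 * l1 = 189 := by rw [← b01]; linear_combination q1
    have k2 : b' * w 1 2 * l2 = 900 := by rw [← b12]; linear_combination q2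
    linear_combination a' * b' * g11 - 3 * b' * (s / 16) * b11 + 4 * b' * w 0 1 * b10
      - b' * w 1 2 * b21 - 4 * k1 + k2 + (3 * b' ^ 2 / 256) * hs2
  have hb2 : b' ^ 2 = 64 := by linear_combination (G0 - G1) * (64 / 45)
  have hab : a' * b' = -64 := by linear_combination (-1 / 3) * G0 + (-1 / 64) * hb2
  have hb0 : b' ≠ 0 := by
    intro h0
    rw [h0] at hb2
    norm_num at hb2
  have habs : a' = -b' := by
    have : b' * (a' + b') = 0 := by linear_combination hb2 + hab
    rcases mul_eq_zero.1 this with h | h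
    · exact absurd h hb0
    · linear_combination h
  have z00 : z 0 0 = s / 64 := by
    have : b' * (z 0 0 - s / 64) = 0 := by
      rw [habs] at b00
      linear_combination -b00
    rcases mul_eq_zero.1 this with h | h
    · exact absurd h hb0
    · linear_combination h
  have f := entry y z r2 0 0
  rw [if_pos rfl, y00, y01, y02, y03, z00, z01, z02, z03] at f
  have : (3:ℂ) * 64 / 4096 = 3 := by linear_combination f - 3 / 4096 * hs2
  norm_num at this

end Pool.Agent.MPb29e0e
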