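import Pool.Agent.MPb29e0e.Main

set_option autoImplicit false

namespace Pool.Agent.MPb29e0e

lemma rel_of (P Q : M4)
    (h : (2:ℂ) • (P * Q) - (2:ℂ)⁻¹ • (Q * P) = ((2:ℂ) - (2:ℂ)⁻¹) • (1 : M4)) :
    (4:ℂ) • (P * Q) - Q * P - (3:ℂ) • (1 : M4) = 0 := by
  have e : (4:ℂ) • (P * Q) - Q * P - (3:ℂ) • (1 : M4)
      = (2:ℂ) • ((2:ℂ) • (P * Q) - (2:ℂ)⁻¹ • (Q * P)) - (3:ℂ) • (1 : M4) := by module
  rw [e, h]
  module

lemma rel_T (P Q : M4) (h : (4:ℂ) • (P * Q) - Q * P - (3:ℂ) • (1 : M4) = 0) :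
    (4:ℂ) • (Q.transpose * P.transpose) - P.transpose * Q.transpose - (3:ℂ) • (1 : M4) = 0 := by
  have := congrArg Matrix.transpose h
  simpa [Matrix.transpose_sub, Matrix.transpose_smul, Matrix.transpose_mul] using this

lemma serre_of (P Q : M4)
    (h : P ^ 3 * Q - ((2:ℂ) ^ 2 + 1 + (2:ℂ)⁻¹ ^ 2) • (P ^ 2 * Q * P)
            + ((2:ℂ) ^ 2 + 1 + (2:ℂ)⁻¹ ^ 2) • (P * Q * P ^ 2) - Q * P ^ 3 = 0) :
    E3 P Q = 0 := by
  have e : E3 P Q = (4:ℂ) • (P ^ 3 * Q - ((2:ℂ) ^ 2 + 1 + (2:ℂ)⁻¹ ^ 2) • (P ^ 2 * Q * P)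
            + ((2:ℂ) ^ 2 + 1 + (2:ℂ)⁻¹ ^ 2) • (P * Q * P ^ 2) - Q * P ^ 3) := by
    unfold E3
    simp only [pow_succ, pow_zero, one_mul, ← mul_assoc]
    module
  rw [e, h, smul_zero]

lemma BB_T (p1 p2 p3 l1 l2 l3 : ℂ) :
    (BB p1 p2 p3 l1 l2 l3).transpose = BB l1 l2 l3 p1 p2 p3 := by
  unfold BB
  ext i j
  fin_cases i <;> fin_cases j <;> rfl

lemma DD_T (c : ℂ) : (DD c).transpose = DD c := by
  unfold DD
  ext i j
  fin_cases i <;> fin_cases j <;> rfl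

lemma DD_sub (c : ℂ) : DD 0 - c • (1 : M4) = DD c := by
  unfold DD
  ext i j
  fin_cases i <;> fin_cases j <;> simp

lemma nonexist (X : ZMod 4 → ZMod 4 → M4)
    (hrel : ∀ i j k : ZMod 4,
          ((j - i = 1 ∧ k - j = 1) ∨ (j - i = 1 ∧ k - j = 2) ∨ (j - i = 2 ∧ k - j = 1)) →
          (2:ℂ) • (X i j * X j k) - (2:ℂ)⁻¹ • (X j k * X i j) = ((2:ℂ) - (2:ℂ)⁻¹) • (1 : M4))
    (hserre : ∀ i j k l : ZMod 4, j - i = 1 → k - j = 1 → l - k = 1 →
          X i j ^ 3 * X k l - ((2:ℂ) ^ 2 + 1 + (2:ℂ)⁻¹ ^ 2) • (X i j ^ 2 * X k l * X i j)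
            + ((2:ℂ) ^ 2 + 1 + (2:ℂ)⁻¹ ^ 2) • (X i j * X k l * X i j ^ 2) - X k l * X i j ^ 3 = 0)
    (a b c a' b' c' : ℂ)
    (hA : DD 0 = a • X 0 1 + b • X 1 2 + c • (1 : M4))
    (hAs : B0 = a' • X 2 3 + b' • X 3 0 + c' • (1 : M4)) : False := by
  have r01_12 := rel_of _ _ (hrel 0 1 2 (by decide))
  have r12_23 := rel_of _ _ (hrel 1 2 3 (by decide))
  have r23_30 := rel_of _ _ (hrel 2 3 0 (by decide))
  have r30_01 := rel_of _ _ (hrel 3 0 1 (by decide))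
  have r01_13 := rel_of _ _ (hrel 0 1 3 (by decide))
  have r13_30 := rel_of _ _ (hrel 1 3 0 (by decide))
  have r31_12 := rel_of _ _ (hrel 3 1 2 (by decide))
  have r23_31 := rel_of _ _ (hrel 2 3 1 (by decide))
  have s1 := serre_of _ _ (hserre 0 1 2 3 (by decide) (by decide) (by decide))
  have s2 := serre_of _ _ (hserre 1 2 3 0 (by decide) (by decide) (by decide))
  have hC : DD c = a • X 0 1 + b • X 1 2 := by
    rw [← DD_sub, hA]
    abel
  have key := TT_B a b a' b' c' (X 0 1) (X 1 2) (X 2 3) (X 3 0) (DD c) B0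
    r01_12 r12_23 r30_01 s1 s2 hC hAs
  obtain ⟨hc, hab⟩ := core2 c (a * b) 189 900 3024 1 1 1 (by norm_num) (by norm_num) key
  rw [hc] at hC
  rcases mul_eq_zero.1 hab with h | h
  · -- a = 0
    rw [h, zero_smul, zero_add] at hC
    have hb : b ≠ 0 := by
      intro hb
      rw [hb, zero_smul] at hC
      have := congrFun (congrFun hC 3) 3
      simp [DD] at this
    have hx : (X 1 2).transpose = b⁻¹ • DD 0 := by
      rw [← DD_T 0, hC, Matrix.transpose_smul, smul_smul, inv_mul_cancel₀ hb, one_smul]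
    have hB : BB 1 1 1 189 900 3024 = b' • (X 3 0).transpose + a' • (X 2 3).transpose
        + c' • (1 : M4) := by
      have := congrArg Matrix.transpose hAs
      unfold B0 at this
      rw [BB_T] at this
      rw [this]
      simp only [Matrix.transpose_add, Matrix.transpose_smul, Matrix.transpose_one]
      abel
    exact core3 (X 1 2).transpose (X 0 1).transpose (X 3 0).transpose (X 2 3).transpose
      (X 3 1).transpose b⁻¹ 1 1 1 189 900 3024 b' a' c' (inv_ne_zero hb) hx (by norm_num)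
      (by norm_num) (by norm_num) (rel_T _ _ r01_12) (rel_T _ _ r30_01) (rel_T _ _ r23_30)
      (rel_T _ _ r12_23) (rel_T _ _ r31_12) (rel_T _ _ r23_31) hB
  · -- b = 0
    rw [h, zero_smul, add_zero] at hC
    have ha : a ≠ 0 := by
      intro ha
      rw [ha, zero_smul] at hC
      have := congrFun (congrFun hC 3) 3
      simp [DD] at this
    have hx : X 0 1 = a⁻¹ • DD 0 := by
      rw [hC, smul_smul, inv_mul_cancel₀ ha, one_smul]
    exact core3 (X 0 1) (X 1 2) (X 2 3) (X 3 0) (X 1 3) a⁻¹ 189 900 3024 1 1 1 a' b' c'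
      (inv_ne_zero ha) hx (by norm_num) (by norm_num) (by norm_num) r01_12 r12_23 r23_30 r30_01
      r01_13 r13_30 hAs

lemma two_not_root : ∀ n : ℕ, 0 < n → (2:ℂ) ^ n ≠ 1 := by
  intro n hn h
  have h1 : ((2 ^ n : ℕ) : ℂ) = ((1 : ℕ) : ℂ) := by push_cast; exact h
  have h2 : 2 ^ n = 1 := Nat.cast_injective h1
  have h3 : 1 < 2 ^ n := Nat.one_lt_two_pow (by omega)
  omega

lemma nonexistEnd : ¬ ∃ X : ZMod 4 → ZMod 4 → Module.End ℂ V4,
        (∀ i j : ZMod 4, j - i = 2 → X i j * X j i = 1) ∧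
        (∀ i j k : ZMod 4,
          ((j - i = 1 ∧ k - j = 1) ∨ (j - i = 1 ∧ k - j = 2) ∨ (j - i = 2 ∧ k - j = 1)) →
          (2:ℂ) • (X i j * X j k) - (2:ℂ)⁻¹ • (X j k * X i j)
            = ((2:ℂ) - (2:ℂ)⁻¹) • (1 : Module.End ℂ V4)) ∧
        (∀ i j k l : ZMod 4, j - i = 1 → k - j = 1 → l - k = 1 →
          X i j ^ 3 * X k l - ((2:ℂ) ^ 2 + 1 + (2:ℂ)⁻¹ ^ 2) • (X i j ^ 2 * X k l * X i j)
            + ((2:ℂ) ^ 2 + 1 + (2:ℂ)⁻¹ ^ 2) • (X i j * X k l * X i j ^ 2)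
            - X k l * X i j ^ 3 = 0) ∧
        (∀ W : Submodule ℂ V4,
          (∀ i j : ZMod 4, (j - i = 1 ∨ j - i = 2) → ∀ v ∈ W, X i j v ∈ W) →
          W = ⊥ ∨ W = ⊤) ∧
        (∃ a b c : ℂ, A = a • X 0 1 + b • X 1 2 + c • (1 : Module.End ℂ V4)) ∧
        (∃ a b c : ℂ, As = a • X 2 3 + b • X 3 0 + c • (1 : Module.End ℂ V4)) := by
  rintro ⟨X, _, hrel, hserre, _, ⟨a, b, c, hA⟩, ⟨a', b', c', hAs⟩⟩
  refine nonexist (fun i j => φ.symm (X i j)) ?_ ?_ a b c a' b' c' ?_ ?_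
  · intro i j k h
    have := congrArg φ.symm (hrel i j k h)
    simpa only [map_sub, map_smul, map_mul, map_one] using this
  · intro i j k l h1 h2 h3
    have := congrArg φ.symm (hserre i j k l h1 h2 h3)
    simpa only [map_sub, map_add, map_smul, map_mul, map_pow, map_zero] using this
  · have := congrArg φ.symm hA
    unfold A at this
    rw [AlgEquiv.symm_apply_apply] at this
    simpa only [map_add, map_smul, map_one] using this
  · have := congrArg φ.symm hAs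
    unfold As at this
    rw [AlgEquiv.symm_apply_apply] at this
    simpa only [map_add, map_smul, map_one] using this

end Pool.Agent.MPb29e0e
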