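import Pool.Agent.MPb29e0e.Core

set_option autoImplicit false

namespace Pool.Agent.MPb29e0e

abbrev V4 := Fin 4 → ℂ

/-- one half of the tridiagonal pair condition from explicit eigenvectors -/
lemma TDhalf (T S : Module.End ℂ V4) (θ : Fin 4 → ℂ) (hθ : Function.Injective θ)
    (u : Fin 4 → V4) (hu0 : ∀ i, u i ≠ 0) (hu : ∀ i, T (u i) = θ i • u i)
    (c : Fin 4 → Fin 4 → ℂ) (hS : ∀ i, S (u i) = ∑ j, c i j • u j)
    (hc : ∀ i j : Fin 4, ¬ ((j : ℕ) ≤ (i : ℕ) + 1 ∧ (i : ℕ) ≤ (j : ℕ) + 1) → c i j = 0) :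
    ∃ d : ℕ, ∃ θ : Fin (d + 1) → ℂ, Function.Injective θ ∧
        (∀ i, Module.End.eigenspace T (θ i) ≠ ⊥) ∧
        (⨆ i, Module.End.eigenspace T (θ i)) = ⊤ ∧
        ∀ i : Fin (d + 1), Submodule.map S (Module.End.eigenspace T (θ i)) ≤
          ⨆ (j : Fin (d + 1)) (_ : (j : ℕ) ≤ (i : ℕ) + 1 ∧ (i : ℕ) ≤ (j : ℕ) + 1),
            Module.End.eigenspace T (θ j) := by
  have hli : LinearIndependent ℂ u :=
    Module.End.eigenvectors_linearIndependent' T θ hθ u
      (fun i => ⟨by rw [Module.End.mem_eigenspace_iff]; exact hu i, hu0 i⟩)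
  have hcard : Fintype.card (Fin 4) = Module.finrank ℂ V4 := by simp
  set b := basisOfLinearIndependentOfCardEqFinrank hli hcard with hb
  have hbu : ∀ i, b i = u i := by
    intro i
    rw [hb]
    simp
  have hmem : ∀ i, u i ∈ Module.End.eigenspace T (θ i) := by
    intro i
    rw [Module.End.mem_eigenspace_iff]
    exact hu i
  refine ⟨3, θ, hθ, ?_, ?_, ?_⟩
  · intro i h
    have := hmem i
    rw [h, Submodule.mem_bot] at this
    exact hu0 i this
  · rw [eq_top_iff, ← b.span_eq, Submodule.span_le]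
    rintro _ ⟨i, rfl⟩
    rw [hbu]
    exact Submodule.mem_iSup_of_mem i (hmem i)
  · intro i
    rintro _ ⟨v, hv, rfl⟩
    have hv' : T v = θ i • v := (Module.End.mem_eigenspace_iff).1 hv
    have hsum : v = ∑ j, b.repr v j • u j := by
      conv_lhs => rw [← b.sum_repr v]
      simp only [hbu]
    have hzero : ∑ j, (b.repr v j * (θ j - θ i)) • u j = 0 := by
      have h1 : T v = ∑ j, (b.repr v j * θ j) • u j := by
        conv_lhs => rw [hsum]
        rw [map_sum]
        refine Finset.sum_congr rfl fun j _ => ?_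
        rw [map_smul, hu, smul_smul]
      have h2 : θ i • v = ∑ j, (b.repr v j * θ i) • u j := by
        conv_lhs => rw [hsum]
        rw [Finset.smul_sum]
        refine Finset.sum_congr rfl fun j _ => ?_
        rw [smul_smul, mul_comm]
      have h3 : ∑ j, (b.repr v j * (θ j - θ i)) • u j
          = ∑ j, (b.repr v j * θ j) • u j - ∑ j, (b.repr v j * θ i) • u j := by
        rw [← Finset.sum_sub_distrib]
        refine Finset.sum_congr rfl fun j _ => ?_
        rw [← sub_smul, mul_sub]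
      rw [h3, ← h1, ← h2, hv', sub_self]
    have hcoef := Fintype.linearIndependent_iff.1 hli _ hzero
    have hv1 : v = b.repr v i • u i := by
      conv_lhs => rw [hsum]
      rw [Finset.sum_eq_single i]
      · intro j _ hj
        rcases mul_eq_zero.1 (hcoef j) with h | h
        · rw [h, zero_smul]
        · exact absurd (hθ (sub_eq_zero.1 h)) hj
      · intro h; exact absurd (Finset.mem_univ i) h
    rw [hv1, map_smul, hS]
    refine Submodule.smul_mem _ _ (Submodule.sum_mem _ fun j _ => ?_)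
    by_cases hj : ((j : ℕ) ≤ (i : ℕ) + 1 ∧ (i : ℕ) ≤ (j : ℕ) + 1)
    · refine Submodule.smul_mem _ _ ?_
      exact Submodule.mem_iSup_of_mem j (Submodule.mem_iSup_of_mem hj (hmem j))
    · rw [hc i j hj, zero_smul]
      exact Submodule.zero_mem _

/-- the algebra isomorphism matrices = endomorphisms -/
noncomputable def φ : M4 ≃ₐ[ℂ] Module.End ℂ V4 := Matrix.toLinAlgEquiv'

noncomputable def B0 : M4 := BB 189 900 3024 1 1 1

noncomputable def A : Module.End ℂ V4 := φ (DD 0)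
noncomputable def As : Module.End ℂ V4 := φ B0

lemma A_apply (v : V4) : A v = ![64 * v 0, 16 * v 1, 4 * v 2, v 3] := by
  unfold A φ
  rw [Matrix.toLinAlgEquiv'_apply]
  ext i
  fin_cases i <;> simp [DD, Matrix.mulVec, dotProduct, Fin.sum_univ_four]

lemma As_apply (v : V4) :
    As v = ![189 * v 1, v 0 + 900 * v 2, v 1 + 3024 * v 3, v 2] := by
  unfold As φ B0 BB
  rw [Matrix.toLinAlgEquiv'_apply]
  ext i
  fin_cases i <;> simp [Matrix.mulVec, dotProduct, Fin.sum_univ_four]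


lemma A0 (v : V4) : A v 0 = 64 * v 0 := by rw [A_apply]; rfl
lemma A1 (v : V4) : A v 1 = 16 * v 1 := by rw [A_apply]; rfl
lemma A2 (v : V4) : A v 2 = 4 * v 2 := by rw [A_apply]; rfl
lemma A3 (v : V4) : A v 3 = v 3 := by rw [A_apply]; rfl

lemma halfA : ∃ d : ℕ, ∃ θ : Fin (d + 1) → ℂ, Function.Injective θ ∧
        (∀ i, Module.End.eigenspace A (θ i) ≠ ⊥) ∧
        (⨆ i, Module.End.eigenspace A (θ i)) = ⊤ ∧
        ∀ i : Fin (d + 1), Submodule.map As (Module.End.eigenspace A (θ i)) ≤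
          ⨆ (j : Fin (d + 1)) (_ : (j : ℕ) ≤ (i : ℕ) + 1 ∧ (i : ℕ) ≤ (j : ℕ) + 1),
            Module.End.eigenspace A (θ j) := by
  apply TDhalf A As ![64, 16, 4, 1] ?_ (fun i => Pi.single i 1) ?_ ?_
    ![![0, 1, 0, 0], ![189, 0, 1, 0], ![0, 900, 0, 1], ![0, 0, 3024, 0]]
  · intro i
    ext k
    rw [As_apply]
    fin_cases i <;> fin_cases k <;> simp [Fin.sum_univ_four]
  · intro i j h
    fin_cases i <;> fin_cases j <;> simp at h ⊢
  · intro i j h
    fin_cases i <;> fin_cases j <;> simp at h ⊢ <;> norm_num at h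
  · intro i
    simp
  · intro i
    ext k
    rw [A_apply]
    fin_cases i <;> fin_cases k <;> simp

lemma halfAs : ∃ d : ℕ, ∃ θ : Fin (d + 1) → ℂ, Function.Injective θ ∧
        (∀ i, Module.End.eigenspace As (θ i) ≠ ⊥) ∧
        (⨆ i, Module.End.eigenspace As (θ i)) = ⊤ ∧
        ∀ i : Fin (d + 1), Submodule.map A (Module.End.eigenspace As (θ i)) ≤
          ⨆ (j : Fin (d + 1)) (_ : (j : ℕ) ≤ (i : ℕ) + 1 ∧ (i : ℕ) ≤ (j : ℕ) + 1),
            Module.End.eigenspace As (θ j) := by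
  apply TDhalf As A ![63, 12, -12, -63] ?_
    ![![2835, 945, 63, 1], ![-45360, -2880, 12, 1], ![45360, -2880, -12, 1],
      ![-2835, 945, -63, 1]] ?_ ?_
    ![![80/17, -63/17, 0, 0], ![-192/17, 1285/34, -51/2, 0], ![0, -51/2, 1285/34, -192/17],
      ![0, 0, -63/17, 80/17]]
  · intro i
    ext k
    rw [A_apply]
    fin_cases i <;> fin_cases k <;> simp [Fin.sum_univ_four] <;> norm_num
  · intro i j h
    fin_cases i <;> fin_cases j <;> simp at h ⊢
  · intro i j h
    fin_cases i <;> fin_cases j <;> simp at h ⊢ <;> norm_num [Complex.ext_iff] at h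
  · intro i h
    have := congrFun h 3
    fin_cases i <;> simp at this
  · intro i
    ext k
    rw [As_apply]
    fin_cases i <;> fin_cases k <;> simp <;> norm_num

lemma irred : ∀ W : Submodule ℂ V4, (∀ v ∈ W, A v ∈ W) → (∀ v ∈ W, As v ∈ W) →
    W = ⊥ ∨ W = ⊤ := by
  intro W hA hAs
  have step : ∀ (θ : ℂ) (w : V4), w ∈ W → A w - θ • w ∈ W := fun θ w hw =>
    Submodule.sub_mem _ (hA w hw) (Submodule.smul_mem _ _ hw)
  have p0 : ∀ w ∈ W, w 0 • (Pi.single 0 1 : V4) ∈ W := by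
    intro w hw
    have h := step 1 _ (step 4 _ (step 16 _ hw))
    have e : w 0 • (Pi.single 0 1 : V4) = (1 / (48 * 60 * 63) : ℂ) •
        (A (A (A w - (16:ℂ) • w) - (4:ℂ) • (A w - (16:ℂ) • w))
          - (1:ℂ) • (A (A w - (16:ℂ) • w) - (4:ℂ) • (A w - (16:ℂ) • w))) := by
      ext k
      fin_cases k <;> simp [A0, A1, A2, A3] <;> ring
    rw [e]
    exact Submodule.smul_mem _ _ h
  have p1 : ∀ w ∈ W, w 1 • (Pi.single 1 1 : V4) ∈ W := by
    intro w hw
    have h := step 1 _ (step 4 _ (step 64 _ hw))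
    have e : w 1 • (Pi.single 1 1 : V4) = (1 / ((-48) * 12 * 15) : ℂ) •
        (A (A (A w - (64:ℂ) • w) - (4:ℂ) • (A w - (64:ℂ) • w))
          - (1:ℂ) • (A (A w - (64:ℂ) • w) - (4:ℂ) • (A w - (64:ℂ) • w))) := by
      ext k
      fin_cases k <;> simp [A0, A1, A2, A3] <;> ring
    rw [e]
    exact Submodule.smul_mem _ _ h
  have p2 : ∀ w ∈ W, w 2 • (Pi.single 2 1 : V4) ∈ W := by
    intro w hw
    have h := step 1 _ (step 16 _ (step 64 _ hw))
    have e : w 2 • (Pi.single 2 1 : V4) = (1 / ((-60) * (-12) * 3) : ℂ) •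
        (A (A (A w - (64:ℂ) • w) - (16:ℂ) • (A w - (64:ℂ) • w))
          - (1:ℂ) • (A (A w - (64:ℂ) • w) - (16:ℂ) • (A w - (64:ℂ) • w))) := by
      ext k
      fin_cases k <;> simp [A0, A1, A2, A3] <;> ring
    rw [e]
    exact Submodule.smul_mem _ _ h
  have p3 : ∀ w ∈ W, w 3 • (Pi.single 3 1 : V4) ∈ W := by
    intro w hw
    have h := step 4 _ (step 16 _ (step 64 _ hw))
    have e : w 3 • (Pi.single 3 1 : V4) = (1 / ((-63) * (-15) * (-3)) : ℂ) •
        (A (A (A w - (64:ℂ) • w) - (16:ℂ) • (A w - (64:ℂ) • w))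
          - (4:ℂ) • (A (A w - (64:ℂ) • w) - (16:ℂ) • (A w - (64:ℂ) • w))) := by
      ext k
      fin_cases k <;> simp [A0, A1, A2, A3] <;> ring
    rw [e]
    exact Submodule.smul_mem _ _ h
  have cancel : ∀ (m : ℂ) (v : V4), m ≠ 0 → m • v ∈ W → v ∈ W := by
    intro m v hm h
    have := Submodule.smul_mem W m⁻¹ h
    rwa [smul_smul, inv_mul_cancel₀ hm, one_smul] at this
  have a01 : (Pi.single 0 1 : V4) ∈ W → (Pi.single 1 1 : V4) ∈ W := by
    intro h
    have := p1 _ (hAs _ h)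
    rw [As_apply] at this
    exact cancel _ _ (by simp) this
  have a12 : (Pi.single 1 1 : V4) ∈ W → (Pi.single 2 1 : V4) ∈ W := by
    intro h
    have := p2 _ (hAs _ h)
    rw [As_apply] at this
    exact cancel _ _ (by simp) this
  have a23 : (Pi.single 2 1 : V4) ∈ W → (Pi.single 3 1 : V4) ∈ W := by
    intro h
    have := p3 _ (hAs _ h)
    rw [As_apply] at this
    exact cancel _ _ (by simp) this
  have a10 : (Pi.single 1 1 : V4) ∈ W → (Pi.single 0 1 : V4) ∈ W := by
    intro h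
    have := p0 _ (hAs _ h)
    rw [As_apply] at this
    exact cancel _ _ (by simp) this
  have a21 : (Pi.single 2 1 : V4) ∈ W → (Pi.single 1 1 : V4) ∈ W := by
    intro h
    have := p1 _ (hAs _ h)
    rw [As_apply] at this
    exact cancel _ _ (by simp) this
  have a32 : (Pi.single 3 1 : V4) ∈ W → (Pi.single 2 1 : V4) ∈ W := by
    intro h
    have := p2 _ (hAs _ h)
    rw [As_apply] at this
    exact cancel _ _ (by simp) this
  have all : (Pi.single 0 1 : V4) ∈ W → W = ⊤ := by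
    intro h0
    have h1 := a01 h0
    have h2 := a12 h1
    have h3 := a23 h2
    rw [eq_top_iff]
    intro v _
    have e : v = v 0 • (Pi.single 0 1 : V4) + v 1 • (Pi.single 1 1 : V4)
        + v 2 • (Pi.single 2 1 : V4) + v 3 • (Pi.single 3 1 : V4) := by
      ext k
      fin_cases k <;> simp
    rw [e]
    exact Submodule.add_mem _ (Submodule.add_mem _ (Submodule.add_mem _
      (Submodule.smul_mem _ _ h0) (Submodule.smul_mem _ _ h1)) (Submodule.smul_mem _ _ h2))
      (Submodule.smul_mem _ _ h3)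
  by_cases hbot : W = ⊥
  · exact Or.inl hbot
  · right
    obtain ⟨v, hv, hv0⟩ := Submodule.exists_mem_ne_zero_of_ne_bot hbot
    have : v 0 ≠ 0 ∨ v 1 ≠ 0 ∨ v 2 ≠ 0 ∨ v 3 ≠ 0 := by
      by_contra hcon
      push Not at hcon
      apply hv0
      ext k
      fin_cases k
      · exact hcon.1
      · exact hcon.2.1
      · exact hcon.2.2.1
      · exact hcon.2.2.2
    rcases this with h | h | h | h
    · exact all (cancel _ _ h (p0 v hv))
    · exact all (a10 (cancel _ _ h (p1 v hv)))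
    · exact all (a10 (a21 (cancel _ _ h (p2 v hv))))
    · exact all (a10 (a21 (a32 (cancel _ _ h (p3 v hv)))))

lemma rels : ∃ γ γs ϱ ϱs : ℂ,
        A * (A ^ 2 * As - ((2:ℂ) ^ 2 + (2:ℂ)⁻¹ ^ 2) • (A * As * A) + As * A ^ 2
              - γ • (A * As + As * A) - ϱ • As)
          = (A ^ 2 * As - ((2:ℂ) ^ 2 + (2:ℂ)⁻¹ ^ 2) • (A * As * A) + As * A ^ 2
              - γ • (A * As + As * A) - ϱ • As) * A ∧
        As * (As ^ 2 * A - ((2:ℂ) ^ 2 + (2:ℂ)⁻¹ ^ 2) • (As * A * As) + A * As ^ 2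
              - γs • (A * As + As * A) - ϱs • A)
          = (As ^ 2 * A - ((2:ℂ) ^ 2 + (2:ℂ)⁻¹ ^ 2) • (As * A * As) + A * As ^ 2
              - γs • (A * As + As * A) - ϱs • A) * As := by
  refine ⟨0, 0, 0, 900, ?_, ?_⟩
  · unfold A As
    simp only [← map_mul, ← map_pow, ← map_smul, ← map_sub, ← map_add]
    congr 1
    unfold B0 BB DD
    ext i j
    fin_cases i <;> fin_cases j <;>
      simp [pow_two, Matrix.mul_apply, Fin.sum_univ_four] <;> norm_num
  · unfold A As
    simp only [← map_mul, ← map_pow, ← map_smul, ← map_sub, ← map_add]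
    congr 1
    unfold B0 BB DD
    ext i j
    fin_cases i <;> fin_cases j <;>
      simp [pow_two, Matrix.mul_apply, Fin.sum_univ_four] <;> norm_num

end Pool.Agent.MPb29e0e
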